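import Pool.Agent.Helper94.UEC.Final

/-!
It is undecidable whether an instance of the Post correspondence problem is a unique equality
continuation instance.
-/

namespace Pool.Agent.Results.MP_c472bb_lc.UECUndecidable

open Pool.Agent.Helper94.UEC

/-- There is no algorithm deciding whether a given instance `(h, g)` of the Post correspondence
problem (a finite list of the pairs `(h(c), g(c))` of words over the natural numbers) is a unique
equality continuation instance. -/
theorem result : ¬ ComputablePred IsUEC := undecidable

end Pool.Agent.Results.MP_c472bb_lc.UECUndecidable
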